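import Mathlib
import Pool.Agent.Lib.MP_0a8963_lc.Defs
import Pool.Agent.Lib.MP_0a8963_lc.F.Defs
import Pool.Agent.Lib.MP_0a8963_lc.Main

set_option autoImplicit false

namespace Pool.Agent.Results.MP_0a8963_lc.GroundKurepa

open Pool.Agent.Lib.ZFCForcing (Fm)
open Pool.Agent.Lib.MP_5d9fac_lc Pool.Agent.Lib.MP_0a8963_lc

/-- Assume `V = L`, let `ω₄ < δ < ω₅` with `L δ` elementary in `L ω₅`. There is a first-order
formula `ψ` with parameters in `L δ` such that Miller-type Namba forcing forces: the relation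
defined by `ψ` in `L δ` has a domain of size `ℵ₂`, a range of size `ℵ₁`, pairwise different
sections, and only countably many traces on every countable set. -/
theorem result (hL : ∀ x : ZFSet.{0}, ∃ o : Ordinal.{0}, x ∈ L o) (δ : Ordinal.{0})
    (h4 : Ordinal.omega 4 < δ) (_h5 : δ < Ordinal.omega 5)
    (hel : Elem (L δ) (L (Ordinal.omega 5))) :
    ∃ (k : ℕ) (ψ : Fm (k + 2)) (v : Fin k → ZFSet.{0}), (∀ i, v i ∈ L δ) ∧
      ∀ U : Ult (RO Nm), IsZFC (Mem U) ∧ Good (Mem U) (cl U (chk (rel (L δ) ψ v))) := by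
  obtain ⟨k, ψ, v, hv, h⟩ := main hL δ h4 hel
  exact ⟨k, ψ, v, hv, fun U => ⟨isZFC_mod U, h U⟩⟩

end Pool.Agent.Results.MP_0a8963_lc.GroundKurepa
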